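import Pool.Agent.Helper6.MONO.Stmts

set_option autoImplicit false

/-! # Module INV -/

noncomputable section
namespace Pool.Agent.Helper6.MONO

theorem st_INV : ST_INV := by
  intro p q r _ _ _ i τ G _ x
  have h : gact G [i, i] x = fire G i (fire G i x) := rfl
  have h0 : gact G [] x = x := rfl
  rw [h, h0]
  funext k
  unfold fire
  by_cases hk : k = i
  · subst hk
    rw [if_pos rfl, if_pos rfl]
    have e : ∀ j : Fin 3, (if j = k then (0 : ℂ) else G j k *
        (if j = k then -x k + ∑ j, (if j = k then 0 else G j k * x j) else x j)) =
        (if j = k then 0 else G j k * x j) := by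
      intro j
      by_cases hj : j = k
      · rw [if_pos hj, if_pos hj]
      · rw [if_neg hj, if_neg hj, if_neg hj]
    rw [Finset.sum_congr rfl (fun j _ => e j)]
    ring
  · rw [if_neg hk, if_neg hk]

end Pool.Agent.Helper6.MONO
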