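import Pool.Agent.Helper6.MONO.Stmts

set_option autoImplicit false

/-! # Module TL1: the triangle inequality of the complex hyperbolic plane -/

noncomputable section
namespace Pool.Agent.Helper6.MONO

/-- the determinant -/
def tl1_D (x y z : Fin 3 → ℂ) : ℂ :=
  x 0 * (y 1 * z 2 - y 2 * z 1) - x 1 * (y 0 * z 2 - y 2 * z 0) + x 2 * (y 0 * z 1 - y 1 * z 0)

theorem tl1_star (x y : Fin 3 → ℂ) : star (hf x y) = hf y x := by
  simp only [hf, star_sub, star_add, star_mul', star_star]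
  ring

theorem tl1_gram (x y z : Fin 3 → ℂ) :
    hf x x * hf y y * hf z z + hf x y * hf y z * hf z x + hf y x * hf z y * hf x z
      - hf x x * (hf y z * hf z y) - hf y y * (hf z x * hf x z) - hf z z * (hf x y * hf y x) =
      -(tl1_D x y z * star (tl1_D x y z)) := by
  simp only [hf, tl1_D, star_sub, star_add, star_mul', star_star]
  ring

theorem tl1_self (x : Fin 3 → ℂ) : hf x x = (((hf x x).re : ℝ) : ℂ) := by
  have h := tl1_star x x
  exact ((Complex.conj_eq_iff_real.mp h).elim fun r hr => by rw [hr]; simp)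

theorem tl1_mul_star (z : ℂ) : z * star z = ((‖z‖ ^ 2 : ℝ) : ℂ) := by
  have := Complex.mul_conj z
  rw [Complex.normSq_eq_norm_sq] at this
  exact this

theorem tl1_key (x y z : Fin 3 → ℂ) (hy : Neg y) :
    ‖-(((hf y y).re : ℝ) : ℂ) * hf x z + hf x y * hf y z‖ ^ 2 ≤
      (‖hf x y‖ ^ 2 - (hf x x).re * (hf y y).re) * (‖hf y z‖ ^ 2 - (hf y y).re * (hf z z).re) := by
  have hG := tl1_gram x y z
  set p := (hf x x).re with hp
  set q := (hf y y).re with hq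
  set r := (hf z z).re with hr
  have e1 : hf x x = (p : ℂ) := tl1_self x
  have e2 : hf y y = (q : ℂ) := tl1_self y
  have e3 : hf z z = (r : ℂ) := tl1_self z
  have e4 : hf x y * hf y x = ((‖hf x y‖ ^ 2 : ℝ) : ℂ) := by
    rw [← tl1_star x y]; exact tl1_mul_star _
  have e5 : hf y z * hf z y = ((‖hf y z‖ ^ 2 : ℝ) : ℂ) := by
    rw [← tl1_star y z]; exact tl1_mul_star _
  have e6 : tl1_D x y z * star (tl1_D x y z) = ((‖tl1_D x y z‖ ^ 2 : ℝ) : ℂ) := tl1_mul_star _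
  have e7 : (-(q : ℂ) * hf x z + hf x y * hf y z) * star (-(q : ℂ) * hf x z + hf x y * hf y z) =
      ((‖-(q : ℂ) * hf x z + hf x y * hf y z‖ ^ 2 : ℝ) : ℂ) := tl1_mul_star _
  have e8 : star (-(q : ℂ) * hf x z + hf x y * hf y z) =
      -(q : ℂ) * hf z x + hf y x * hf z y := by
    rw [star_add, star_mul', star_mul', tl1_star, tl1_star, tl1_star, star_neg]
    congr 2
    rw [neg_inj]
    exact Complex.conj_ofReal q
  rw [e8] at e7
  rw [e1, e2, e3, e4, e5, e6] at hG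
  have h9 : ((‖-(q : ℂ) * hf x z + hf x y * hf y z‖ ^ 2 : ℝ) : ℂ) =
      (((‖hf x y‖ ^ 2 - p * q) * (‖hf y z‖ ^ 2 - q * r) + q * ‖tl1_D x y z‖ ^ 2 : ℝ) : ℂ) := by
    rw [← e7]
    have h10 : (-(q : ℂ) * hf x z + hf x y * hf y z) * (-(q : ℂ) * hf z x + hf y x * hf z y) =
        (q : ℂ) * (q * (hf z x * hf x z) - (hf x y * hf y z * hf z x + hf y x * hf z y * hf x z)) +
          (hf x y * hf y x) * (hf y z * hf z y) := by ring
    rw [h10, e4, e5]
    push_cast at hG ⊢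
    linear_combination (-(q : ℂ)) * hG
  have h11 := Complex.ofReal_injective h9
  have hq0 : q < 0 := hy
  have h12 : q * ‖tl1_D x y z‖ ^ 2 ≤ 0 :=
    mul_nonpos_of_nonpos_of_nonneg hq0.le (by positivity)
  rw [h11]
  linarith

theorem tl1_re (x : Fin 3 → ℂ) : (hf x x).re = ‖x 0‖ ^ 2 + ‖x 1‖ ^ 2 - ‖x 2‖ ^ 2 := by
  have h : hf x x = ((‖x 0‖ ^ 2 + ‖x 1‖ ^ 2 - ‖x 2‖ ^ 2 : ℝ) : ℂ) := by
    simp only [hf, tl1_mul_star]
    push_cast
    ring
  rw [h, Complex.ofReal_re]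

/-- the reverse Cauchy-Schwarz inequality -/
theorem tl1_rcs (x y : Fin 3 → ℂ) (hx : Neg x) (hy : Neg y) :
    (hf x x).re * (hf y y).re ≤ ‖hf x y‖ ^ 2 := by
  unfold Neg at hx hy
  rw [tl1_re] at hx hy ⊢
  rw [tl1_re]
  set X := Real.sqrt (‖x 0‖ ^ 2 + ‖x 1‖ ^ 2) with hX
  set Y := Real.sqrt (‖y 0‖ ^ 2 + ‖y 1‖ ^ 2) with hY
  have hX2 : X ^ 2 = ‖x 0‖ ^ 2 + ‖x 1‖ ^ 2 := Real.sq_sqrt (by positivity)
  have hY2 : Y ^ 2 = ‖y 0‖ ^ 2 + ‖y 1‖ ^ 2 := Real.sq_sqrt (by positivity)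
  have hX0 : 0 ≤ X := Real.sqrt_nonneg _
  have hY0 : 0 ≤ Y := Real.sqrt_nonneg _
  have hXa : X < ‖x 2‖ := by
    apply lt_of_pow_lt_pow_left₀ 2 (norm_nonneg _)
    linarith
  have hYb : Y < ‖y 2‖ := by
    apply lt_of_pow_lt_pow_left₀ 2 (norm_nonneg _)
    linarith
  have h1 : ‖x 0 * star (y 0) + x 1 * star (y 1)‖ ≤ X * Y := by
    have h2 : ‖x 0 * star (y 0) + x 1 * star (y 1)‖ ≤ ‖x 0‖ * ‖y 0‖ + ‖x 1‖ * ‖y 1‖ := by
      refine (norm_add_le _ _).trans (le_of_eq ?_)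
      simp
    refine h2.trans ?_
    apply le_of_sq_le_sq _ (by positivity)
    rw [mul_pow, hX2, hY2]
    nlinarith [sq_nonneg (‖x 0‖ * ‖y 1‖ - ‖x 1‖ * ‖y 0‖)]
  have h3 : ‖x 2‖ * ‖y 2‖ - X * Y ≤ ‖hf x y‖ := by
    have h4 : x 2 * star (y 2) = (x 0 * star (y 0) + x 1 * star (y 1)) - hf x y := by
      simp only [hf]; ring
    have h5 : ‖x 2‖ * ‖y 2‖ = ‖x 2 * star (y 2)‖ := by simp
    rw [h5, h4]
    have := norm_sub_le (x 0 * star (y 0) + x 1 * star (y 1)) (hf x y)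
    linarith
  have h6 : 0 ≤ ‖x 2‖ * ‖y 2‖ - X * Y := by
    have := mul_le_mul hXa.le hYb.le hY0 (norm_nonneg _)
    linarith
  have h7 : (‖x 2‖ * ‖y 2‖ - X * Y) ^ 2 ≤ ‖hf x y‖ ^ 2 := pow_le_pow_left₀ h6 h3 2
  refine le_trans ?_ h7
  rw [← hX2, ← hY2]
  nlinarith [sq_nonneg (‖x 2‖ * Y - ‖y 2‖ * X)]

theorem st_TL1 : ST_TL1 := by
  intro x y z hx hy hz
  have kx : 0 < -(hf x x).re := neg_pos.mpr hx
  have ky : 0 < -(hf y y).re := neg_pos.mpr hy
  have kz : 0 < -(hf z z).re := neg_pos.mpr hz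
  set P := -(hf x x).re with hP
  set Q := -(hf y y).re with hQ
  set R := -(hf z z).re with hR
  have exy : (hf x x).re * (hf y y).re = P * Q := by rw [hP, hQ]; ring
  have eyz : (hf y y).re * (hf z z).re = Q * R := by rw [hR, hQ]; ring
  have exz : (hf x x).re * (hf z z).re = P * R := by rw [hP, hR]; ring
  have r1 := tl1_rcs x y hx hy
  have r2 := tl1_rcs y z hy hz
  have r3 := tl1_rcs x z hx hz
  have hk := tl1_key x y z hy
  rw [exy] at r1 hk
  rw [eyz] at r2 hk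
  rw [exz] at r3
  unfold hd
  rw [exy, eyz, exz, Real.sqrt_mul kx.le, Real.sqrt_mul ky.le, Real.sqrt_mul kx.le]
  set sp := Real.sqrt P with hsp
  set sq := Real.sqrt Q with hsq
  set sr := Real.sqrt R with hsr
  have sp0 : 0 < sp := Real.sqrt_pos.mpr kx
  have sq0 : 0 < sq := Real.sqrt_pos.mpr ky
  have sr0 : 0 < sr := Real.sqrt_pos.mpr kz
  have sp2 : sp ^ 2 = P := Real.sq_sqrt kx.le
  have sq2 : sq ^ 2 = Q := Real.sq_sqrt ky.le
  have sr2 : sr ^ 2 = R := Real.sq_sqrt kz.le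
  have c1 : 1 ≤ ‖hf x y‖ / (sp * sq) := by
    rw [one_le_div (by positivity)]
    apply le_of_sq_le_sq _ (norm_nonneg _)
    rw [mul_pow, sp2, sq2]
    exact r1
  have c2 : 1 ≤ ‖hf y z‖ / (sq * sr) := by
    rw [one_le_div (by positivity)]
    apply le_of_sq_le_sq _ (norm_nonneg _)
    rw [mul_pow, sr2, sq2]
    exact r2
  have c3 : 1 ≤ ‖hf x z‖ / (sp * sr) := by
    rw [one_le_div (by positivity)]
    apply le_of_sq_le_sq _ (norm_nonneg _)
    rw [mul_pow, sp2, sr2]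
    exact r3
  set a := ‖hf x y‖ / (sp * sq) with ha
  set b := ‖hf y z‖ / (sq * sr) with hb
  have ea : ‖hf x y‖ = a * (sp * sq) := by rw [ha]; field_simp
  have eb : ‖hf y z‖ = b * (sq * sr) := by rw [hb]; field_simp
  set u := Real.sqrt (a ^ 2 - 1) with hu
  set v := Real.sqrt (b ^ 2 - 1) with hv
  have u0 : 0 ≤ u := Real.sqrt_nonneg _
  have v0 : 0 ≤ v := Real.sqrt_nonneg _
  have u2 : u ^ 2 = a ^ 2 - 1 := Real.sq_sqrt (by nlinarith)
  have v2 : v ^ 2 = b ^ 2 - 1 := Real.sq_sqrt (by nlinarith)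
  have hM : ‖-(((hf y y).re : ℝ) : ℂ) * hf x z + hf x y * hf y z‖ ≤
      u * v * (sp * sq * (sq * sr)) := by
    apply le_of_sq_le_sq _ (by positivity)
    refine hk.trans (le_of_eq ?_)
    rw [ea, eb, ← sp2, ← sq2, ← sr2]
    have : (u * v * (sp * sq * (sq * sr))) ^ 2 = u ^ 2 * v ^ 2 * (sp * sq * (sq * sr)) ^ 2 := by
      ring
    rw [this, u2, v2]
    ring
  have hQz : Q * ‖hf x z‖ ≤ u * v * (sp * sq * (sq * sr)) + a * b * (sp * sq * (sq * sr)) := by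
    have h1 : -(((hf y y).re : ℝ) : ℂ) * hf x z =
        (-(((hf y y).re : ℝ) : ℂ) * hf x z + hf x y * hf y z) - hf x y * hf y z := by ring
    have h2 : ‖-(((hf y y).re : ℝ) : ℂ) * hf x z‖ = Q * ‖hf x z‖ := by
      rw [norm_mul, norm_neg, Complex.norm_real, Real.norm_eq_abs, abs_of_neg hy]
    rw [← h2, h1]
    refine (norm_sub_le _ _).trans ?_
    rw [norm_mul (hf x y), ea, eb]
    have : a * (sp * sq) * (b * (sq * sr)) = a * b * (sp * sq * (sq * sr)) := by ring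
    linarith
  have hc : ‖hf x z‖ / (sp * sr) ≤ a * b + u * v := by
    rw [div_le_iff₀ (by positivity)]
    have h3 : u * v * (sp * sq * (sq * sr)) + a * b * (sp * sq * (sq * sr)) =
        Q * ((a * b + u * v) * (sp * sr)) := by
      rw [← sq2]; ring
    rw [h3] at hQz
    exact le_of_mul_le_mul_left hQz ky
  have hcosh : a * b + u * v = Real.cosh (Real.arcosh a + Real.arcosh b) := by
    rw [Real.cosh_add, Real.cosh_arcosh c1, Real.cosh_arcosh c2, Real.sinh_arcosh c1,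
      Real.sinh_arcosh c2]
  have h4 : Real.arcosh (‖hf x z‖ / (sp * sr)) ≤ Real.arcosh a + Real.arcosh b := by
    have h5 : 0 ≤ Real.arcosh a + Real.arcosh b :=
      add_nonneg (Real.arcosh_nonneg c1) (Real.arcosh_nonneg c2)
    rw [← Real.arcosh_cosh h5, ← hcosh]
    rw [Real.arcosh_le_arcosh (by linarith) (by linarith)]
    exact hc
  linarith

end Pool.Agent.Helper6.MONO
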